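import Pool.Agent.H999R2.KSat.SQ
import Pool.Agent.H999R2.KSat.Defs2

/-!
# Convergence of the threshold (abstract version, general window)

Adaptation of the convergence argument of `Pool.Agent.H999R2.KSat.CV1`-`CV5` (helper999, helper415,
helper619, helper839, helper3, helper835) to a general window and to interpolation inequalities
that lose a factor `(1-1/n)^m`.
-/

set_option autoImplicit false

namespace Pool.Agent.H224R2.CT
open Finset Filter Pool.Agent.H999R2.KSat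

/-- abstract hypotheses for the convergence argument -/
structure HypC (c : ℝ) (s : ℕ → ℕ) (n1 : ℕ) (p : ℕ → ℕ → ℝ) : Prop where
  hc0 : 0 < c
  hc2 : c ≤ 1 / 2
  hn1 : 2 ≤ n1
  h0 : ∀ n : ℕ, p n 0 = 1
  hnn : ∀ n m : ℕ, 0 ≤ p n m
  hanti : ∀ n m : ℕ, p n (m + 1) ≤ p n m
  hfm : ∃ A r : ℝ, 1 ≤ A ∧ 0 < r ∧ r < 1 ∧ ∀ n m : ℕ, n1 ≤ n → p n m ≤ A ^ n * r ^ m
  hwin : ∀ n : ℕ, n1 ≤ n → (s n : ℝ) ≤ (n : ℝ) ^ (1 - c)
  hsharp : ∀ Λ δ : ℝ, 0 < δ → ∃ n0 : ℕ, ∀ n m : ℕ, n0 ≤ n → (m : ℝ) + s n ≤ Λ * n →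
      (1 - p n m) * p n (m + s n) ^ 2 ≤ δ
  hone : ∀ n m : ℕ, n1 ≤ n → (((n : ℝ) - 1) / n) ^ m * p n m ≤ p (n + 1) m
  htwo : ∀ (N1 N2 m m1 m2 : ℕ) (d : ℝ), n1 ≤ N1 → n1 ≤ N2 → 0 ≤ d → 4 * (m : ℝ) ≤ d ^ 2 →
      m * (N1 : ℝ) / (N1 + N2) + d ≤ m1 → m * (N2 : ℝ) / (N1 + N2) + d ≤ m2 →
      1 / 2 * ((((N1 : ℝ) - 1) / N1) ^ m1 * p N1 m1) * ((((N2 : ℝ) - 1) / N2) ^ m2 * p N2 m2) ≤
        p (N1 + N2) m

variable {c : ℝ} {s : ℕ → ℕ} {n1 : ℕ} {p : ℕ → ℕ → ℝ}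

theorem HypC.anti (h : HypC c s n1 p) (n : ℕ) {m m' : ℕ} (hm : m ≤ m') :
    p n m' ≤ p n m :=
  antitone_nat_of_succ_le (h.hanti n) hm

theorem HypC.le_one (h : HypC c s n1 p) (n m : ℕ) : p n m ≤ 1 := by
  have h1 := h.anti n (Nat.zero_le m)
  rw [h.h0] at h1
  exact h1

theorem HypC.first_bound (h : HypC c s n1 p) (δ : ℝ) (hδ : 0 < δ) :
    ∃ Λ : ℝ, 0 < Λ ∧ ∀ n m : ℕ, n1 ≤ n → δ ≤ p n m → (m : ℝ) ≤ Λ * n := by
  obtain ⟨A, q, hA, hq0, hq1, hq⟩ := h.hfm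
  have hL : 0 < -Real.log q := by
    have := Real.log_neg hq0 hq1
    linarith
  have hlogA : 0 ≤ Real.log A := Real.log_nonneg hA
  refine ⟨(Real.log A + |Real.log δ| + 1) / (-Real.log q), by positivity, ?_⟩
  intro n m hn hp
  have hn' : (1 : ℝ) ≤ n := by
    have := h.hn1
    have : 1 ≤ n := by omega
    exact_mod_cast this
  have hA0 : 0 < A := by linarith
  have h1 : δ ≤ A ^ n * q ^ m := hp.trans (hq n m hn)
  have h2 := Real.log_le_log hδ h1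
  rw [Real.log_mul (by positivity) (by positivity), Real.log_pow, Real.log_pow] at h2
  have h3 : -|Real.log δ| ≤ Real.log δ := neg_abs_le _
  have h4 : |Real.log δ| ≤ |Real.log δ| * n := by
    have := abs_nonneg (Real.log δ)
    nlinarith
  rw [div_mul_eq_mul_div, le_div_iff₀ hL]
  nlinarith

theorem HypC.Mx_spec (h : HypC c s n1 p) (n : ℕ) (hn : n1 ≤ n) :
    1 / 2 ≤ p n (Mx p n) ∧ ∀ m, 1 / 2 ≤ p n m → m ≤ Mx p n := by
  obtain ⟨Λ, _, hb⟩ := h.first_bound (1 / 2) (by norm_num)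
  have hne : {m : ℕ | 1 / 2 ≤ p n m}.Nonempty := by
    refine ⟨0, ?_⟩
    show 1 / 2 ≤ p n 0
    rw [h.h0]
    norm_num
  have hbdd : BddAbove {m : ℕ | 1 / 2 ≤ p n m} := by
    refine ⟨⌊Λ * n⌋₊, ?_⟩
    intro m hm
    exact Nat.le_floor (hb n m hn hm)
  constructor
  · exact Nat.sSup_mem hne hbdd
  · intro m hm
    exact le_csSup hbdd hm

/-- Step A -/
theorem HypC.stepA (h : HypC c s n1 p) (δ : ℝ) (hδ : 0 < δ) :
    ∃ n0 : ℕ, ∀ n m : ℕ, n0 ≤ n → δ ≤ p n m → (m : ℝ) ≤ Mx p n + (n : ℝ) ^ (1 - c) := by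
  obtain ⟨Λ, hΛ, hΛm⟩ := h.first_bound δ hδ
  obtain ⟨n0, hn0⟩ := h.hsharp Λ (δ ^ 2 / 4) (by positivity)
  refine ⟨max n0 n1, fun n m hn hm => ?_⟩
  have hn1' : n1 ≤ n := (le_max_right n0 n1).trans hn
  have hn2 : n0 ≤ n := (le_max_left n0 n1).trans hn
  have hw := h.hwin n hn1'
  have hMx : (0 : ℝ) ≤ Mx p n := Nat.cast_nonneg _
  rcases Nat.lt_or_ge m (s n) with hc | hc
  · have : (m : ℝ) ≤ (s n : ℝ) := by exact_mod_cast hc.le
    linarith
  · obtain ⟨m', hm'⟩ := Nat.exists_eq_add_of_le hc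
    rw [add_comm] at hm'
    have h1 : (m' : ℝ) + (s n : ℝ) ≤ Λ * n := by
      have := hΛm n m hn1' hm
      rw [hm'] at this
      push_cast at this
      exact this
    have h2 := hn0 n m' hn2 h1
    rw [← hm'] at h2
    have h5 : δ ^ 2 ≤ p n m ^ 2 := pow_le_pow_left₀ hδ.le hm 2
    have hp1 := h.le_one n m'
    have h6 : (1 - p n m') * δ ^ 2 ≤ (1 - p n m') * p n m ^ 2 :=
      mul_le_mul_of_nonneg_left h5 (by linarith)
    have h7 : 1 / 2 ≤ p n m' := by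
      by_contra hcon
      push Not at hcon
      have h8 : 0 < δ ^ 2 := by positivity
      nlinarith
    have h9 := (h.Mx_spec n hn1').2 m' h7
    have h10 : (m' : ℝ) ≤ Mx p n := by exact_mod_cast h9
    have h11 : (m : ℝ) = m' + (s n : ℝ) := by rw [hm']; push_cast; rfl
    rw [h11]
    linarith

/-- Step A' -/
theorem HypC.stepA' (h : HypC c s n1 p) (ε : ℝ) (hε : 0 < ε) :
    ∃ n0 : ℕ, ∀ n m : ℕ, n0 ≤ n →
      (m : ℝ) + (n : ℝ) ^ (1 - c) ≤ Mx p n → 1 - ε ≤ p n m := by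
  obtain ⟨Λ, hΛ, hΛm⟩ := h.first_bound (1 / 2) (by norm_num)
  obtain ⟨n0, hn0⟩ := h.hsharp Λ (ε / 4) (by positivity)
  refine ⟨max n0 n1, fun n m hn hm => ?_⟩
  have hn1' : n1 ≤ n := (le_max_right n0 n1).trans hn
  have hn2 : n0 ≤ n := (le_max_left n0 n1).trans hn
  have hw := h.hwin n hn1'
  obtain ⟨hM1, hM2⟩ := h.Mx_spec n hn1'
  have hle : m + s n ≤ Mx p n := by
    have : (m : ℝ) + (s n : ℝ) ≤ Mx p n := by linarith
    exact_mod_cast this
  have h1 : 1 / 2 ≤ p n (m + s n) := hM1.trans (h.anti n hle)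
  have h2 : (m : ℝ) + (s n : ℝ) ≤ Λ * n := by
    have := hΛm n _ hn1' h1
    push_cast at this
    exact this
  have h3 := hn0 n m hn2 h2
  have hp1 := h.le_one n m
  have h6 : (1 / 2 : ℝ) ^ 2 ≤ p n (m + s n) ^ 2 :=
    pow_le_pow_left₀ (by norm_num) h1 2
  have h7 : (1 - p n m) * (1 / 2 : ℝ) ^ 2 ≤ (1 - p n m) * p n (m + s n) ^ 2 :=
    mul_le_mul_of_nonneg_left h6 (by linarith)
  nlinarith

/-- lower bound of the loss factor -/
theorem loss_factor (Λ : ℝ) (N m : ℕ) (hN : 2 ≤ N) (hm : (m : ℝ) ≤ Λ * N) :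
    Real.exp (-(2 * Λ)) ≤ (((N : ℝ) - 1) / N) ^ m := by
  have hN2 : (2 : ℝ) ≤ N := by exact_mod_cast hN
  have hN0 : (0 : ℝ) < N := by linarith
  have h1 : Real.exp (-(2 / (N : ℝ))) ≤ ((N : ℝ) - 1) / N := by
    have h2 : 1 + 2 / (N : ℝ) ≤ Real.exp (2 / (N : ℝ)) := by
      have := Real.add_one_le_exp (2 / (N : ℝ)); linarith
    rw [Real.exp_neg, inv_eq_one_div]
    have h3 : 1 / Real.exp (2 / (N : ℝ)) ≤ 1 / (1 + 2 / (N : ℝ)) :=
      one_div_le_one_div_of_le (by positivity) h2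
    refine h3.trans ?_
    rw [div_le_div_iff₀ (by positivity) hN0]
    have : (1 : ℝ) * N ≤ (N - 1) * (1 + 2 / N) := by
      have h4 : ((N : ℝ) - 1) * (1 + 2 / N) = N + 1 - 2 / N := by field_simp; ring
      rw [h4]
      have : 2 / (N : ℝ) ≤ 1 := by rw [div_le_one hN0]; exact hN2
      linarith
    exact this
  calc Real.exp (-(2 * Λ)) ≤ Real.exp (m * -(2 / (N : ℝ))) := by
        apply Real.exp_le_exp.2
        have : (m : ℝ) * (1 / N) ≤ Λ := by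
          rw [mul_one_div, div_le_iff₀ hN0]; exact hm
        have e : (m : ℝ) * -(2 / (N : ℝ)) = -(2 * ((m : ℝ) * (1 / N))) := by ring
        rw [e]
        linarith
    _ = Real.exp (-(2 / (N : ℝ))) ^ m := by rw [Real.exp_nat_mul]
    _ ≤ _ := pow_le_pow_left₀ (Real.exp_pos _).le h1 m

/-- Step B -/
theorem HypC.stepB (h : HypC c s n1 p) :
    ∃ C : ℝ, 0 < C ∧ ∃ n0 : ℕ, ∀ N1 N2 : ℕ, n0 ≤ N1 → n0 ≤ N2 →
      N1 + N2 ≤ 4 * N1 → N1 + N2 ≤ 4 * N2 →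
      min ((Mx p N1 : ℝ) / N1) ((Mx p N2 : ℝ) / N2) -
        C * ((N1 + N2 : ℕ) : ℝ) ^ (-c) ≤
        (Mx p (N1 + N2) : ℝ) / ((N1 + N2 : ℕ) : ℝ) := by
  obtain ⟨L0, hL0, hL⟩ := h.first_bound (1 / 2) (by norm_num)
  have hspec := fun n hn => h.Mx_spec n hn
  set ℓ : ℝ := Real.exp (-(2 * L0)) with hℓ
  have hℓ0 : 0 < ℓ := Real.exp_pos _
  obtain ⟨n2, hn2⟩ := h.stepA (1 / 8 * ℓ ^ 2) (by positivity)
  set L : ℝ := max L0 1 with hLdef
  have hL1 : 1 ≤ L := le_max_right _ _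
  refine ⟨8 * Real.sqrt L + 2, by positivity, max n2 n1, ?_⟩
  intro N1 N2 h1 h2 h3 h4
  have hN1n : n1 ≤ N1 := le_trans (le_max_right _ _) h1
  have hN2n : n1 ≤ N2 := le_trans (le_max_right _ _) h2
  have hnn1 := h.hn1
  have hN1 : 0 < N1 := by omega
  have hN2 : 0 < N2 := by omega
  have hN1' : (0 : ℝ) < N1 := by exact_mod_cast hN1
  have hN2' : (0 : ℝ) < N2 := by exact_mod_cast hN2
  set x : ℝ := ((N1 + N2 : ℕ) : ℝ) with hx
  have hxs : x = (N1 : ℝ) + N2 := by rw [hx]; push_cast; ring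
  have hx1 : 1 ≤ x := by
    have : (1 : ℝ) ≤ N1 := by exact_mod_cast hN1
    linarith
  have hx0 : 0 < x := by linarith
  have h3' : x ≤ 4 * N1 := by rw [hx]; exact_mod_cast h3
  have h4' : x ≤ 4 * N2 := by rw [hx]; exact_mod_cast h4
  have hc0 := h.hc0
  have hc2 := h.hc2
  have e1 : x ^ (1 - c) = x * x ^ (-c) := by
    rw [sub_eq_add_neg, Real.rpow_add hx0, Real.rpow_one]
  have e2 : 1 ≤ x * x ^ (-c) := by
    rw [← e1]; exact Real.one_le_rpow hx1 (by linarith)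
  have e3 : Real.sqrt x ≤ x * x ^ (-c) := by
    rw [← e1, Real.sqrt_eq_rpow]
    exact Real.rpow_le_rpow_of_exponent_le hx1 (by linarith)
  set y : ℝ := x * x ^ (-c) with hy
  set ρ : ℝ := min ((Mx p N1 : ℝ) / N1) ((Mx p N2 : ℝ) / N2) with hρ
  have hρ1 : ρ * N1 ≤ Mx p N1 := by
    have : ρ ≤ (Mx p N1 : ℝ) / N1 := min_le_left _ _
    rwa [le_div_iff₀ hN1'] at this
  have hρ2 : ρ * N2 ≤ Mx p N2 := by
    have : ρ ≤ (Mx p N2 : ℝ) / N2 := min_le_right _ _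
    rwa [le_div_iff₀ hN2'] at this
  have hρ0 : 0 ≤ ρ := le_min (by positivity) (by positivity)
  have hρL : ρ ≤ L := by
    have a1 := hL N1 _ hN1n (hspec N1 hN1n).1
    have a2 : (Mx p N1 : ℝ) / N1 ≤ L0 := by rw [div_le_iff₀ hN1']; exact a1
    exact (min_le_left _ _).trans (a2.trans (le_max_left _ _))
  set d : ℝ := 2 * Real.sqrt (L * x) with hd
  have hd0 : 0 ≤ d := by positivity
  have hdd : d ^ 2 = 4 * (L * x) := by
    rw [hd, mul_pow, Real.sq_sqrt (by positivity)]; ring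
  have hdy : 4 * d ≤ 8 * Real.sqrt L * y := by
    rw [hd, Real.sqrt_mul (by linarith)]
    have : Real.sqrt L * Real.sqrt x ≤ Real.sqrt L * y :=
      mul_le_mul_of_nonneg_left e3 (Real.sqrt_nonneg _)
    linarith
  -- it suffices to multiply by x
  suffices hs : ρ * x - (8 * Real.sqrt L + 2) * y ≤ Mx p (N1 + N2) by
    rw [le_div_iff₀ hx0]
    have : (ρ - (8 * Real.sqrt L + 2) * x ^ (-c)) * x =
        ρ * x - (8 * Real.sqrt L + 2) * y := by rw [hy]; ring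
    rw [this]; exact hs
  by_cases hcase : ρ * x < 4 * d
  · have hM0 : (0 : ℝ) ≤ Mx p (N1 + N2) := Nat.cast_nonneg _
    have hy0 : 0 ≤ y := by linarith
    nlinarith
  · push Not at hcase
    set m : ℕ := ⌊ρ * x - 4 * d⌋₊ with hm
    have hm1 : (m : ℝ) ≤ ρ * x - 4 * d := Nat.floor_le (by linarith)
    have hm2 : ρ * x - 4 * d < m + 1 := Nat.lt_floor_add_one _
    have hmm : 4 * (m : ℝ) ≤ d ^ 2 := by
      rw [hdd]
      have : ρ * x ≤ L * x := mul_le_mul_of_nonneg_right hρL hx0.le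
      linarith
    have key : ∀ t : ℝ, 0 < t → x ≤ 4 * t → m * t / x + d ≤ ρ * t := by
      intro t ht hxt
      have b1 : (m : ℝ) * t / x ≤ (ρ * x - 4 * d) * t / x := by
        apply div_le_div_of_nonneg_right _ hx0.le
        exact mul_le_mul_of_nonneg_right hm1 ht.le
      have b2 : (ρ * x - 4 * d) * t / x = ρ * t - d * (4 * t / x) := by
        field_simp
      have b3 : 1 ≤ 4 * t / x := by rwa [le_div_iff₀ hx0, one_mul]
      have b4 : d * 1 ≤ d * (4 * t / x) := mul_le_mul_of_nonneg_left b3 hd0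
      linarith
    have k1 := h.htwo N1 N2 m (Mx p N1) (Mx p N2) d hN1n hN2n hd0 hmm
      (by rw [← hxs]; exact (key N1 hN1' h3').trans hρ1)
      (by rw [← hxs]; exact (key N2 hN2' h4').trans hρ2)
    have k2 := (hspec N1 hN1n).1
    have k3 := (hspec N2 hN2n).1
    have g1 := loss_factor L0 N1 (Mx p N1) (by omega) (hL N1 _ hN1n k2)
    have g2 := loss_factor L0 N2 (Mx p N2) (by omega) (hL N2 _ hN2n k3)
    have k4 : 1 / 8 * ℓ ^ 2 ≤ p (N1 + N2) m := by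
      refine le_trans ?_ k1
      have a1 : ℓ * (1 / 2) ≤ (((N1 : ℝ) - 1) / N1) ^ (Mx p N1) * p N1 (Mx p N1) :=
        mul_le_mul g1 k2 (by norm_num) (hℓ0.le.trans g1)
      have a2 : ℓ * (1 / 2) ≤ (((N2 : ℝ) - 1) / N2) ^ (Mx p N2) * p N2 (Mx p N2) :=
        mul_le_mul g2 k3 (by norm_num) (hℓ0.le.trans g2)
      have a3 := mul_le_mul a1 a2 (by positivity) (le_trans (by positivity) a1)
      nlinarith
    have k5 := hn2 (N1 + N2) m ((le_max_left _ _).trans (h1.trans (Nat.le_add_right _ _))) k4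
    rw [e1] at k5
    nlinarith [e2]

/-- Step C: one more vertex -/
theorem HypC.stepC (h : HypC c s n1 p) :
    ∃ C : ℝ, 0 < C ∧ ∃ n0 : ℕ, ∀ N : ℕ, n0 ≤ N →
      (Mx p N : ℝ) / N - C * (N : ℝ) ^ (-c) ≤
        (Mx p (N + 1) : ℝ) / ((N + 1 : ℕ) : ℝ) := by
  obtain ⟨Λ, hΛ, hfb⟩ := h.first_bound (1 / 2) (by norm_num)
  have hδ : 0 < Real.exp (-(2 * Λ)) / 2 := by positivity
  obtain ⟨n2, hA⟩ := h.stepA _ hδ
  refine ⟨Λ + 1, by linarith, max n1 n2, fun N hN => ?_⟩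
  have hNn1 : n1 ≤ N := le_trans (le_max_left _ _) hN
  have hnn1 := h.hn1
  have hN1 : 1 ≤ N := by omega
  have hNn : n2 ≤ N + 1 := le_trans (le_trans (le_max_right _ _) hN) (Nat.le_succ _)
  have hNr : (1 : ℝ) ≤ N := by exact_mod_cast hN1
  have hN0 : (0 : ℝ) < N := by linarith
  have hc0 := h.hc0
  have hc1 : c ≤ 1 := by have := h.hc2; linarith
  have hm := (h.Mx_spec N hNn1).1
  set m : ℕ := Mx p N with hmdef
  have hmΛ : (m : ℝ) ≤ Λ * N := hfb N m hNn1 hm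
  have hpow := loss_factor Λ N m (by omega) hmΛ
  have hlow : Real.exp (-(2 * Λ)) / 2 ≤ p (N + 1) m := by
    have h1 := h.hone N m hNn1
    have h2 : Real.exp (-(2 * Λ)) * (1 / 2) ≤ (((N : ℝ) - 1) / N) ^ m * p N m :=
      mul_le_mul hpow hm (by norm_num) ((Real.exp_pos _).le.trans hpow)
    linarith
  have hstep := hA (N + 1) m hNn hlow
  have hNs : (0 : ℝ) < ((N + 1 : ℕ) : ℝ) := by positivity
  have hNs' : ((N + 1 : ℕ) : ℝ) = (N : ℝ) + 1 := by push_cast; ring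
  -- divide
  have hdiv : (m : ℝ) / ((N + 1 : ℕ) : ℝ) ≤ (Mx p (N + 1) : ℝ) / ((N + 1 : ℕ) : ℝ) +
      ((N + 1 : ℕ) : ℝ) ^ (-c) := by
    have e : ((N + 1 : ℕ) : ℝ) ^ (-c) = ((N + 1 : ℕ) : ℝ) ^ (1 - c) / ((N + 1 : ℕ) : ℝ) := by
      rw [show (-c : ℝ) = (1 - c) - 1 by ring, Real.rpow_sub_one hNs.ne']
    rw [e, ← add_div]
    exact div_le_div_of_nonneg_right hstep hNs.le
  have hle : ((N + 1 : ℕ) : ℝ) ^ (-c) ≤ (N : ℝ) ^ (-c) := by
    apply Real.rpow_le_rpow_of_nonpos hN0 (by rw [hNs']; linarith) (by linarith)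
  have hinv : 1 / (N : ℝ) ≤ (N : ℝ) ^ (-c) := by
    rw [one_div, ← Real.rpow_neg_one]
    exact Real.rpow_le_rpow_of_exponent_le hNr (by linarith)
  have hdiff : (m : ℝ) / N - (m : ℝ) / ((N + 1 : ℕ) : ℝ) ≤ Λ * (N : ℝ) ^ (-c) := by
    have e : (m : ℝ) / N - (m : ℝ) / ((N + 1 : ℕ) : ℝ) = ((m : ℝ) / N) * (1 / ((N : ℝ) + 1)) := by
      rw [hNs']; field_simp; ring
    rw [e]
    have h1 : (m : ℝ) / N ≤ Λ := by rw [div_le_iff₀ hN0]; exact hmΛ
    have h2 : 1 / ((N : ℝ) + 1) ≤ (N : ℝ) ^ (-c) :=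
      le_trans (one_div_le_one_div_of_le hN0 (by linarith)) hinv
    exact mul_le_mul h1 h2 (by positivity) hΛ.le
  have : (Λ + 1) * (N : ℝ) ^ (-c) = Λ * (N : ℝ) ^ (-c) + (N : ℝ) ^ (-c) := by ring
  linarith

theorem rpow_small (c η : ℝ) (hc : 0 < c) (hη : 0 < η) :
    ∀ᶠ n : ℕ in atTop, (n : ℝ) ^ (1 - c) ≤ η * n := by
  have h1 : Tendsto (fun n : ℕ => (n : ℝ) ^ (-c)) atTop (nhds 0) :=
    (tendsto_rpow_neg_atTop hc).comp tendsto_natCast_atTop_atTop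
  filter_upwards [h1.eventually (gt_mem_nhds hη), eventually_gt_atTop 0] with n hn hn0
  have hn' : (0 : ℝ) < n := by exact_mod_cast hn0
  have e : (n : ℝ) ^ (1 - c) = n * (n : ℝ) ^ (-c) := by
    rw [sub_eq_add_neg, Real.rpow_add hn', Real.rpow_one]
  rw [e, mul_comm]
  exact mul_le_mul_of_nonneg_right (le_of_lt hn) hn'.le

theorem HypC.convergence (h : HypC c s n1 p) :
    ∃ rs : ℝ, (∀ r, r < rs → Tendsto (fun n : ℕ => p n ⌊r * (n : ℝ)⌋₊) atTop (nhds 1)) ∧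
      (∀ r, rs < r → Tendsto (fun n : ℕ => p n ⌊r * (n : ℝ)⌋₊) atTop (nhds 0)) := by
  have hcp : 0 < c := h.hc0
  obtain ⟨Λ, hΛ, hfb⟩ := h.first_bound (1 / 2) (by norm_num)
  obtain ⟨C1, hC1, a1, hB⟩ := h.stepB
  obtain ⟨C2, hC2, a2, hC⟩ := h.stepC
  set f : ℕ → ℝ := fun n => if n1 ≤ n then (Mx p n : ℝ) / n else 0 with hf
  have hfe : ∀ n, n1 ≤ n → f n = (Mx p n : ℝ) / n := fun n hn => by simp [hf, hn]
  have hr0 : ∀ n : ℕ, 0 ≤ f n := fun n => by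
    simp only [hf]; split_ifs <;> positivity
  have hnn1 := h.hn1
  obtain ⟨L, hL⟩ := seq_lemma f c (max C1 C2) Λ (max n1 (max a1 a2)) hcp
    (lt_max_of_lt_left hC1) hr0
    (fun n => by
      by_cases hn : n1 ≤ n
      · rw [hfe n hn]
        have hn' : (0 : ℝ) < n := by
          have : 0 < n := by omega
          exact_mod_cast this
        rw [div_le_iff₀ hn']
        exact hfb n _ hn (h.Mx_spec n hn).1
      · simp [hf, hn, hΛ.le])
    (fun N1 N2 h1 h2 h3 h4 => by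
      have b1 : n1 ≤ N1 := (le_max_left _ _).trans h1
      have b2 : n1 ≤ N2 := (le_max_left _ _).trans h2
      have h5 := hB N1 N2 (le_trans ((le_max_left _ _).trans (le_max_right _ _)) h1)
        (le_trans ((le_max_left _ _).trans (le_max_right _ _)) h2) h3 h4
      have h6 : (0 : ℝ) ≤ ((N1 + N2 : ℕ) : ℝ) ^ (-c) := by positivity
      have h7 : C1 * ((N1 + N2 : ℕ) : ℝ) ^ (-c) ≤ max C1 C2 * ((N1 + N2 : ℕ) : ℝ) ^ (-c) :=
        mul_le_mul_of_nonneg_right (le_max_left _ _) h6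
      rw [hfe N1 b1, hfe N2 b2, hfe (N1 + N2) (by omega)]
      linarith)
    (fun N h1 => by
      have b1 : n1 ≤ N := (le_max_left _ _).trans h1
      have h5 := hC N (le_trans ((le_max_right _ _).trans (le_max_right _ _)) h1)
      have h6 : (0 : ℝ) ≤ (N : ℝ) ^ (-c) := by positivity
      have h7 : C2 * (N : ℝ) ^ (-c) ≤ max C1 C2 * (N : ℝ) ^ (-c) :=
        mul_le_mul_of_nonneg_right (le_max_right _ _) h6
      rw [hfe N b1, hfe (N + 1) (by omega)]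
      linarith)
  have hL0 : 0 ≤ L := ge_of_tendsto' hL hr0
  refine ⟨L, fun r hr => ?_, fun r hr => ?_⟩
  · by_cases hr0' : r ≤ 0
    · have e : ∀ n : ℕ, p n ⌊r * (n : ℝ)⌋₊ = 1 := by
        intro n
        have : ⌊r * (n : ℝ)⌋₊ = 0 :=
          Nat.floor_of_nonpos (mul_nonpos_of_nonpos_of_nonneg hr0' (Nat.cast_nonneg n))
        rw [this, h.h0]
      simp only [e]
      exact tendsto_const_nhds
    · rw [not_le] at hr0'
      rw [Metric.tendsto_atTop']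
      intro ε hε
      obtain ⟨n3, hA⟩ := h.stepA' (ε / 2) (by positivity)
      set η := (L - r) / 2 with hη
      have hηp : 0 < η := by rw [hη]; linarith
      have ev := ((hL.eventually (lt_mem_nhds (show r + η < L by rw [hη]; linarith))).and
        (rpow_small c η hcp hηp)).and ((eventually_ge_atTop n3).and (eventually_ge_atTop n1))
      obtain ⟨N, hN⟩ := eventually_atTop.1 ev
      refine ⟨N, fun n hn => ?_⟩
      obtain ⟨⟨h1, h2⟩, h3, h4⟩ := hN n hn.le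
      rw [hfe n h4] at h1
      have hn' : (0 : ℝ) < n := by
        have : 0 < n := by omega
        exact_mod_cast this
      have h5 : (⌊r * (n : ℝ)⌋₊ : ℝ) ≤ r * n := Nat.floor_le (by positivity)
      have h6 : (r + η) * n < Mx p n := by rwa [lt_div_iff₀ hn'] at h1
      have h7 := hA n ⌊r * (n : ℝ)⌋₊ h3 (by nlinarith)
      have h8 := h.le_one n ⌊r * (n : ℝ)⌋₊
      rw [Real.dist_eq, abs_lt]
      constructor <;> linarith
  · rw [Metric.tendsto_atTop']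
    intro ε hε
    obtain ⟨n3, hA⟩ := h.stepA ε hε
    set η := (r - L) / 3 with hη
    have hηp : 0 < η := by rw [hη]; linarith
    have ev := ((hL.eventually (gt_mem_nhds (show L < L + η by linarith))).and
      (rpow_small c η hcp hηp)).and ((eventually_ge_atTop n3).and
      ((eventually_ge_atTop n1).and (tendsto_natCast_atTop_atTop.eventually
        (eventually_gt_atTop (1 / η)))))
    obtain ⟨N, hN⟩ := eventually_atTop.1 ev
    refine ⟨N, fun n hn => ?_⟩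
    obtain ⟨⟨h1, h2⟩, h3, h4, h5⟩ := hN n hn.le
    rw [hfe n h4] at h1
    have hn' : (0 : ℝ) < n := by
      have : 0 < n := by omega
      exact_mod_cast this
    have h6 : (Mx p n : ℝ) < (L + η) * n := by rwa [div_lt_iff₀ hn'] at h1
    have h7 : r * n < ⌊r * (n : ℝ)⌋₊ + 1 := Nat.lt_floor_add_one _
    have h8 : 1 < η * n := by
      rw [div_lt_iff₀ hηp] at h5
      linarith
    have h9 := h.hnn n ⌊r * (n : ℝ)⌋₊
    rw [Real.dist_eq, sub_zero, abs_of_nonneg h9]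
    by_contra hcon
    rw [not_lt] at hcon
    have h10 := hA n _ h3 hcon
    have h11 : (r - L - 2 * η) * n = η * n := by rw [hη]; ring
    nlinarith

end Pool.Agent.H224R2.CT
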