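import Pool.Agent.H224R2.CT.SM
import Pool.Agent.H224R2.CT.CV

/-!
# From the sharp window to the existence of the colourability threshold
-/

set_option autoImplicit false

namespace Pool.Agent.H224R2.CT
open Finset Filter Pool.Agent.H999R2.KSat

/-- a fixed colouring is proper on a random pair with probability at most `1 - 1/(2q)` -/
theorem proper_le (q n : ℕ) (hq : 0 < q) (hn : 2 * q ≤ n) (hn2 : 2 ≤ n) (σ : Fin n → Fin q) :
    E (fun e : {e : Fin n × Fin n // e.1 ≠ e.2} => ind (pr σ e.1)) ≤ 1 - 1 / (2 * q) := by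
  classical
  have hq' : (0 : ℝ) < q := by exact_mod_cast hq
  have hn' : (2 : ℝ) * q ≤ n := by exact_mod_cast hn
  have hn2' : (2 : ℝ) ≤ n := by exact_mod_cast hn2
  have hn0 : (0 : ℝ) < n := by linarith
  have : Nonempty (Fin n) := ⟨⟨0, by omega⟩⟩
  have h1 := E_pairs hn2 (fun e : Fin n × Fin n => ind (pr σ e)) (by
    intro e he
    apply ind_false
    intro h
    exact h (congrArg σ he))
  -- number of monochromatic pairs
  have h2 : ∑ x : Fin n, ∑ y : Fin n, ind (σ x = σ y) = ∑ c : Fin q, (∑ x : Fin n, ind (σ x = c)) ^ 2 := by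
    have h : ∀ x y, ind (σ x = σ y) = ∑ c : Fin q, ind (σ x = c) * ind (σ y = c) := by
      intro x y
      rw [Finset.sum_eq_single (σ x)]
      · rw [ind_true (rfl : σ x = σ x), one_mul]
        exact ind_congr ⟨fun h => h.symm, fun h => h.symm⟩
      · intro c _ hc
        rw [ind_false (fun h => hc h.symm), zero_mul]
      · intro h; exact absurd (mem_univ _) h
    simp_rw [h, sq, Finset.sum_mul_sum]
    rw [Finset.sum_congr rfl fun y _ => Finset.sum_comm]
    rw [Finset.sum_comm]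
  have h3 : ∑ c : Fin q, ∑ x : Fin n, ind (σ x = c) = n := by
    rw [Finset.sum_comm]
    have : ∀ x : Fin n, ∑ c : Fin q, ind (σ x = c) = 1 := by
      intro x
      rw [Finset.sum_eq_single (σ x)]
      · exact ind_true rfl
      · intro c _ hc
        exact ind_false (fun h => hc h.symm)
      · intro h; exact absurd (mem_univ _) h
    rw [Finset.sum_congr rfl fun x _ => this x]
    simp
  have h4 := sq_sum_le_card_mul_sum_sq (s := (univ : Finset (Fin q)))
    (f := fun c => ∑ x : Fin n, ind (σ x = c))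
  rw [h3, card_univ, Fintype.card_fin] at h4
  have h5 : E (fun e : Fin n × Fin n => ind (pr σ e)) ≤ 1 - 1 / q := by
    have e1 : ∀ e : Fin n × Fin n, ind (pr σ e) = 1 - ind (σ e.1 = σ e.2) := by
      intro e; unfold pr; rw [← ind_not]
    rw [E_congr e1, E_sub, E_const]
    have e2 : E (fun e : Fin n × Fin n => ind (σ e.1 = σ e.2)) =
        (∑ c : Fin q, (∑ x : Fin n, ind (σ x = c)) ^ 2) / (n * n) := by
      unfold E
      rw [Fintype.sum_prod_type, h2, Fintype.card_prod, Fintype.card_fin]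
      push_cast
      rfl
    rw [e2]
    have e3 : 1 / (q : ℝ) ≤ (∑ c : Fin q, (∑ x : Fin n, ind (σ x = c)) ^ 2) / (n * n) := by
      rw [div_le_div_iff₀ hq' (by positivity)]
      nlinarith
    linarith
  rw [h1] at h5
  set x := E (fun e : {e : Fin n × Fin n // e.1 ≠ e.2} => ind (pr σ e.1)) with hx
  have h6 : ((n : ℝ) - 1) * x ≤ (1 - 1 / q) * n := by
    have := mul_le_mul_of_nonneg_right h5 hn0.le
    calc ((n : ℝ) - 1) * x = ((n : ℝ) - 1) / n * x * n := by field_simp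
      _ ≤ _ := this
  have h7 : (1 - 1 / (q : ℝ)) * n ≤ ((n : ℝ) - 1) * (1 - 1 / (2 * q)) := by
    have e1 : ((n : ℝ) - 1) * (1 - 1 / (2 * q)) - (1 - 1 / (q : ℝ)) * n =
        (n - (2 * q - 1)) / (2 * q) := by field_simp; ring
    have e2 : 0 ≤ ((n : ℝ) - (2 * q - 1)) / (2 * q) := by
      apply div_nonneg <;> linarith
    linarith
  exact le_of_mul_le_mul_left (h6.trans h7) (by linarith)

/-- first moment bound -/
theorem pc_first_moment (q n m : ℕ) (hq : 0 < q) (hn : 2 * q ≤ n) (hn2 : 2 ≤ n) :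
    pc q n m ≤ (q : ℝ) ^ n * (1 - 1 / (2 * q)) ^ m := by
  classical
  have h1 : pc q n m ≤ E (fun F : Fin m → {e : Fin n × Fin n // e.1 ≠ e.2} =>
      ∑ σ : Fin n → Fin q, ind (∀ j, pr σ (F j).1)) :=
    E_mono fun F => ind_exists_le _
  refine h1.trans ?_
  rw [E_sum]
  have h2 : ∀ σ : Fin n → Fin q, E (fun F : Fin m → {e : Fin n × Fin n // e.1 ≠ e.2} =>
      ind (∀ j, pr σ (F j).1)) ≤ (1 - 1 / (2 * q)) ^ m := by
    intro σ
    have e1 : ∀ F : Fin m → {e : Fin n × Fin n // e.1 ≠ e.2},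
        ind (∀ j, pr σ (F j).1) = ∏ j, ind (pr σ (F j).1) := fun F => ind_forall _
    rw [E_congr e1, E_pi (fun (_ : Fin m) (e : {e : Fin n × Fin n // e.1 ≠ e.2}) => ind (pr σ e.1)),
      Finset.prod_const, card_univ, Fintype.card_fin]
    exact pow_le_pow_left₀ (E_nonneg fun _ => ind_nonneg _) (proper_le q n hq hn hn2 σ) m
  refine (Finset.sum_le_sum fun σ _ => h2 σ).trans ?_
  rw [Finset.sum_const, card_univ, Fintype.card_fun, Fintype.card_fin, Fintype.card_fin,
    nsmul_eq_mul]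
  push_cast
  exact le_refl _

/-- the window -/
noncomputable def win (n : ℕ) : ℕ := ⌊(n : ℝ) ^ ((17 : ℝ) / 18)⌋₊

theorem win_pos (n : ℕ) (hn : 0 < n) : 1 ≤ win n := by
  apply Nat.le_floor
  have : (1 : ℝ) ≤ n := by exact_mod_cast hn
  simpa using Real.one_le_rpow this (by norm_num)

theorem win_le_rpow (n : ℕ) : (win n : ℝ) ≤ (n : ℝ) ^ ((17 : ℝ) / 18) :=
  Nat.floor_le (by positivity)

theorem win_le (n : ℕ) (hn : 0 < n) : win n ≤ n := by
  have h1 : (1 : ℝ) ≤ n := by exact_mod_cast hn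
  have h2 : (n : ℝ) ^ ((17 : ℝ) / 18) ≤ (n : ℝ) ^ (1 : ℝ) :=
    Real.rpow_le_rpow_of_exponent_le h1 (by norm_num)
  rw [Real.rpow_one] at h2
  exact_mod_cast (win_le_rpow n).trans h2

theorem win_ge (n : ℕ) (hn : 0 < n) : (n : ℝ) ^ ((17 : ℝ) / 18) / 2 ≤ win n := by
  have h1 : (1 : ℝ) ≤ (win n : ℝ) := by exact_mod_cast win_pos n hn
  have h2 : (n : ℝ) ^ ((17 : ℝ) / 18) < win n + 1 := Nat.lt_floor_add_one _
  linarith

theorem win_small : Tendsto (fun n : ℕ => (n : ℝ) * (win n : ℝ) ^ (-(9 / 8) : ℝ) + (win n : ℝ) / n)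
    atTop (nhds 0) := by
  have h1 : Tendsto (fun n : ℕ => (2 : ℝ) ^ ((9 : ℝ) / 8) * (n : ℝ) ^ (-(1 / 16) : ℝ) +
      (n : ℝ) ^ (-(1 / 18) : ℝ)) atTop (nhds 0) := by
    have a := (tendsto_rpow_neg_atTop (show (0 : ℝ) < 1 / 16 by norm_num)).comp
      (tendsto_natCast_atTop_atTop (R := ℝ))
    have b := (tendsto_rpow_neg_atTop (show (0 : ℝ) < 1 / 18 by norm_num)).comp
      (tendsto_natCast_atTop_atTop (R := ℝ))
    have := (a.const_mul ((2 : ℝ) ^ ((9 : ℝ) / 8))).add b
    simpa using this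
  apply squeeze_zero' _ _ h1
  · exact Eventually.of_forall fun n => by positivity
  · filter_upwards [eventually_gt_atTop 0] with n hn
    have hn0 : (0 : ℝ) < n := by exact_mod_cast hn
    have hA : 0 < (n : ℝ) ^ ((17 : ℝ) / 18) / 2 := by positivity
    apply add_le_add
    · have e1 : (win n : ℝ) ^ (-(9 / 8) : ℝ) ≤ ((n : ℝ) ^ ((17 : ℝ) / 18) / 2) ^ (-(9 / 8) : ℝ) :=
        Real.rpow_le_rpow_of_nonpos hA (win_ge n hn) (by norm_num)
      have e2 : ((n : ℝ) ^ ((17 : ℝ) / 18) / 2) ^ (-(9 / 8) : ℝ) =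
          (2 : ℝ) ^ ((9 : ℝ) / 8) * (n : ℝ) ^ (-(17 / 16) : ℝ) := by
        rw [Real.div_rpow (by positivity) (by norm_num), ← Real.rpow_mul hn0.le,
          Real.rpow_neg (by norm_num : (0 : ℝ) ≤ 2), div_inv_eq_mul, mul_comm]
        norm_num
      calc (n : ℝ) * (win n : ℝ) ^ (-(9 / 8) : ℝ)
          ≤ n * ((2 : ℝ) ^ ((9 : ℝ) / 8) * (n : ℝ) ^ (-(17 / 16) : ℝ)) := by
            rw [← e2]; exact mul_le_mul_of_nonneg_left e1 hn0.le
        _ = (2 : ℝ) ^ ((9 : ℝ) / 8) * ((n : ℝ) ^ (1 : ℝ) * (n : ℝ) ^ (-(17 / 16) : ℝ)) := by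
            rw [Real.rpow_one]; ring
        _ = _ := by rw [← Real.rpow_add hn0]; norm_num
    · calc (win n : ℝ) / n ≤ (n : ℝ) ^ ((17 : ℝ) / 18) / n :=
            div_le_div_of_nonneg_right (win_le_rpow n) hn0.le
        _ = (n : ℝ) ^ ((17 : ℝ) / 18) / (n : ℝ) ^ (1 : ℝ) := by rw [Real.rpow_one]
        _ = (n : ℝ) ^ (-(1 / 18) : ℝ) := by rw [← Real.rpow_sub hn0]; norm_num

/-- **Existence of the threshold from the sharp window.** -/
theorem col_convergence (q : ℕ) (hq : 0 < q)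
    (hsharp : ∀ Λ : ℝ, ∃ C : ℝ, 0 < C ∧ ∀ n m s : ℕ, 2 ≤ n → 1 ≤ s → s ≤ n →
      (m : ℝ) + s ≤ Λ * n →
      (1 - pc q n m) * pc q n (m + s) ^ 2 ≤
        C * ((n : ℝ) * (s : ℝ) ^ (-(9 / 8) : ℝ) + (s : ℝ) / n)) :
    ∃ rs : ℝ, (∀ r, r < rs → Tendsto (fun n : ℕ => pc q n ⌊r * (n : ℝ)⌋₊) atTop (nhds 1)) ∧
      (∀ r, rs < r → Tendsto (fun n : ℕ => pc q n ⌊r * (n : ℝ)⌋₊) atTop (nhds 0)) := by
  have hq' : (0 : ℝ) < q := by exact_mod_cast hq
  have hq1 : (1 : ℝ) ≤ q := by exact_mod_cast hq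
  have hyp : HypC (1 / 18) win (2 * q) (fun n m => pc q n m) :=
    { hc0 := by norm_num
      hc2 := by norm_num
      hn1 := by omega
      h0 := fun n => pc_zero q n hq
      hnn := fun n m => pc_nonneg q n m
      hanti := fun n m => pc_succ_le q n m
      hfm := ⟨q, 1 - 1 / (2 * q), hq1, by
          have : 1 / (2 * (q : ℝ)) ≤ 1 / 2 := by
            apply one_div_le_one_div_of_le <;> linarith
          linarith, by
          have : 0 < 1 / (2 * (q : ℝ)) := by positivity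
          linarith, fun n m hn => pc_first_moment q n m hq hn (by omega)⟩
      hwin := fun n _ => by
        have := win_le_rpow n
        norm_num at this ⊢
        exact this
      hsharp := by
        intro Λ δ hδ
        obtain ⟨C, hC, hs⟩ := hsharp Λ
        have hlim := win_small.const_mul C
        rw [mul_zero] at hlim
        have hev := (hlim.eventually_lt_const hδ).and (eventually_ge_atTop 2)
        obtain ⟨n0, hn0⟩ := eventually_atTop.mp hev
        refine ⟨n0, fun n m hn hm => ?_⟩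
        obtain ⟨h1, h2⟩ := hn0 n hn
        exact (hs n m (win n) h2 (win_pos n (by omega)) (win_le n (by omega)) hm).trans h1.le
      hone := fun n m hn => pc_super_one q n m hq (by omega)
      htwo := fun N1 N2 m m1 m2 d h1 h2 hd hdm hm1 hm2 =>
        pc_super_two q N1 N2 m m1 m2 d hq (by omega) (by omega) hd hdm hm1 hm2 }
  exact hyp.convergence

end Pool.Agent.H224R2.CT
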