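import Pool.Agent.H999R2.KSat.Defs

/-!
# Interpolation for `q`-colourings of random multigraphs (loops kill)

`sv0 m A`: probability that a colouring in `A` survives `m` uniform ordered pairs of vertices
(a loop kills every colouring).  Adaptation of `Pool.Agent.H999R2.KSat.IN`.
-/

set_option autoImplicit false

namespace Pool.Agent.H224R2.CT
open Finset Filter Pool.Agent.H999R2.KSat

/-- `σ` is proper on the ordered pair `e` -/
def pr {n q : ℕ} (σ : Fin n → Fin q) (e : Fin n × Fin n) : Prop := σ e.1 ≠ σ e.2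

/-- survival probability of the set `A` under `m` uniform ordered pairs (loops kill) -/
noncomputable def sv0 {n q : ℕ} (m : ℕ) (A : Set (Fin n → Fin q)) : ℝ :=
  E (fun F : Fin m → Fin n × Fin n => ind (∃ σ ∈ A, ∀ j, pr σ (F j)))

/-- first block -/
def il (N1 N2 : ℕ) (e : Fin N1 × Fin N1) : Fin (N1 + N2) × Fin (N1 + N2) :=
  (Fin.castAdd N2 e.1, Fin.castAdd N2 e.2)
/-- second block -/
def ir (N1 N2 : ℕ) (e : Fin N2 × Fin N2) : Fin (N1 + N2) × Fin (N1 + N2) :=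
  (Fin.natAdd N1 e.1, Fin.natAdd N1 e.2)

/-- product set -/
def rectc {N1 N2 q : ℕ} (A1 : Set (Fin N1 → Fin q)) (A2 : Set (Fin N2 → Fin q)) :
    Set (Fin (N1 + N2) → Fin q) :=
  {a | (fun i => a (Fin.castAdd N2 i)) ∈ A1 ∧ (fun i => a (Fin.natAdd N1 i)) ∈ A2}

/-- the kernel of an equivalence relation is positive semidefinite -/
theorem kernel_psd {X Y : Type} [Fintype X] [Fintype Y] (g : X → Y) (a : X → ℝ) :
    0 ≤ ∑ x, ∑ y, a x * a y * ind (g x = g y) := by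
  classical
  have h : ∀ x y, ind (g x = g y) = ∑ c : Y, ind (g x = c) * ind (g y = c) := by
    intro x y
    rw [Finset.sum_eq_single (g x)]
    · rw [ind_true (rfl : g x = g x), one_mul]
      exact ind_congr ⟨fun h => h.symm, fun h => h.symm⟩
    · intro c _ hc
      rw [ind_false (fun h => hc h.symm), zero_mul]
    · intro h; exact absurd (mem_univ _) h
  have h2 : ∑ x, ∑ y, a x * a y * ind (g x = g y) = ∑ c : Y, (∑ x, a x * ind (g x = c)) ^ 2 := by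
    simp_rw [h, Finset.mul_sum, sq, Finset.sum_mul_sum]
    rw [Finset.sum_comm' (s := univ) (t := fun _ => univ) (s' := fun _ => univ) (t' := univ)
      (by simp)]
    rw [Finset.sum_congr rfl fun y _ => Finset.sum_comm]
    rw [Finset.sum_comm]
    refine Finset.sum_congr rfl fun c _ => ?_
    rw [Finset.sum_comm]
    refine Finset.sum_congr rfl fun x _ => Finset.sum_congr rfl fun y _ => ?_
    ring
  rw [h2]
  exact Finset.sum_nonneg fun c _ => sq_nonneg _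

/-- one step of the interpolation -/
theorem in_step {N1 N2 q : ℕ} (h1 : 0 < N1) (h2 : 0 < N2) (R : Set (Fin (N1 + N2) → Fin q)) :
    ((N1 : ℝ) / (N1 + N2)) * E (fun e : Fin N1 × Fin N1 => ind (∃ σ ∈ R, pr σ (il N1 N2 e))) +
    ((N2 : ℝ) / (N1 + N2)) * E (fun e : Fin N2 × Fin N2 => ind (∃ σ ∈ R, pr σ (ir N1 N2 e))) ≤
    E (fun e : Fin (N1 + N2) × Fin (N1 + N2) => ind (∃ σ ∈ R, pr σ e)) := by
  classical
  have hN1 : (0 : ℝ) < N1 := by positivity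
  have hN2 : (0 : ℝ) < N2 := by positivity
  have : Nonempty (Fin N1) := ⟨⟨0, h1⟩⟩
  have : Nonempty (Fin N2) := ⟨⟨0, h2⟩⟩
  have : Nonempty (Fin (N1 + N2)) := ⟨⟨0, by omega⟩⟩
  -- class function
  let g : Fin (N1 + N2) → (R → Fin q) := fun x σ => σ.1 x
  have hk : ∀ e : Fin (N1 + N2) × Fin (N1 + N2),
      ind (∃ σ ∈ R, pr σ e) = 1 - ind (g e.1 = g e.2) := by
    intro e
    rw [← ind_not]
    apply ind_congr
    constructor
    · rintro ⟨σ, hσ, hp⟩ hg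
      exact hp (congrFun hg ⟨σ, hσ⟩)
    · intro hne
      by_contra hcon
      push Not at hcon
      apply hne
      funext σ
      have := hcon σ.1 σ.2
      unfold pr at this
      exact not_not.mp this
  rw [E_congr (fun e => hk e), E_congr (fun e => hk (il N1 N2 e)), E_congr (fun e => hk (ir N1 N2 e)),
    E_sub, E_sub, E_sub, E_const, E_const, E_const]
  have hpsd := kernel_psd g (fun x : Fin (N1 + N2) => if x.val < N1 then (N2 : ℝ) else -(N1 : ℝ))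
  set S11 : ℝ := ∑ x : Fin N1, ∑ y : Fin N1, ind (g (Fin.castAdd N2 x) = g (Fin.castAdd N2 y))
    with hS11
  set S22 : ℝ := ∑ x : Fin N2, ∑ y : Fin N2, ind (g (Fin.natAdd N1 x) = g (Fin.natAdd N1 y))
    with hS22
  set S12 : ℝ := ∑ x : Fin N1, ∑ y : Fin N2, ind (g (Fin.castAdd N2 x) = g (Fin.natAdd N1 y))
    with hS12
  set S21 : ℝ := ∑ x : Fin N2, ∑ y : Fin N1, ind (g (Fin.natAdd N1 x) = g (Fin.castAdd N2 y))
    with hS21
  have hpsd' : 0 ≤ (N2 : ℝ) ^ 2 * S11 - N1 * N2 * S12 - N1 * N2 * S21 + (N1 : ℝ) ^ 2 * S22 := by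
    refine hpsd.trans (le_of_eq ?_)
    rw [Fin.sum_univ_add]
    simp_rw [Fin.sum_univ_add]
    simp only [Fin.val_castAdd, Fin.val_natAdd, Fin.is_lt, if_true, Nat.not_lt.mpr (Nat.le_add_right _ _),
      if_false, Finset.sum_add_distrib]
    rw [hS11, hS12, hS21, hS22]
    simp_rw [Finset.mul_sum]
    have e1 : ∀ x y : Fin N1, (N2 : ℝ) * N2 * ind (g (Fin.castAdd N2 x) = g (Fin.castAdd N2 y)) =
      (N2 : ℝ) ^ 2 * ind (g (Fin.castAdd N2 x) = g (Fin.castAdd N2 y)) := by intros; ring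
    have e2 : ∀ (x : Fin N1) (y : Fin N2),
      (N2 : ℝ) * -N1 * ind (g (Fin.castAdd N2 x) = g (Fin.natAdd N1 y)) =
      -((N1 : ℝ) * N2 * ind (g (Fin.castAdd N2 x) = g (Fin.natAdd N1 y))) := by intros; ring
    have e3 : ∀ (x : Fin N2) (y : Fin N1),
      -(N1 : ℝ) * N2 * ind (g (Fin.natAdd N1 x) = g (Fin.castAdd N2 y)) =
      -((N1 : ℝ) * N2 * ind (g (Fin.natAdd N1 x) = g (Fin.castAdd N2 y))) := by intros; ring
    have e4 : ∀ x y : Fin N2, -(N1 : ℝ) * -N1 * ind (g (Fin.natAdd N1 x) = g (Fin.natAdd N1 y)) =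
      (N1 : ℝ) ^ 2 * ind (g (Fin.natAdd N1 x) = g (Fin.natAdd N1 y)) := by intros; ring
    simp_rw [e1, e2, e3, e4, Finset.sum_neg_distrib]
    ring
  have E1 : E (fun e : Fin N1 × Fin N1 => ind (g (il N1 N2 e).1 = g (il N1 N2 e).2)) =
      S11 / (N1 * N1) := by
    unfold E il
    rw [Fintype.sum_prod_type, Fintype.card_prod, Fintype.card_fin]
    push_cast
    rfl
  have E2 : E (fun e : Fin N2 × Fin N2 => ind (g (ir N1 N2 e).1 = g (ir N1 N2 e).2)) =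
      S22 / (N2 * N2) := by
    unfold E ir
    rw [Fintype.sum_prod_type, Fintype.card_prod, Fintype.card_fin]
    push_cast
    rfl
  have E3 : E (fun e : Fin (N1 + N2) × Fin (N1 + N2) => ind (g e.1 = g e.2)) =
      (S11 + S12 + S21 + S22) / ((N1 + N2) * (N1 + N2)) := by
    unfold E
    rw [Fintype.sum_prod_type, Fintype.card_prod, Fintype.card_fin, Fin.sum_univ_add]
    simp_rw [Fin.sum_univ_add, Finset.sum_add_distrib]
    push_cast
    rw [hS11, hS12, hS21, hS22]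
    congr 1
    ring
  rw [E1, E2, E3]
  have hN : (0 : ℝ) < (N1 : ℝ) + N2 := by positivity
  have key : ((N1 : ℝ) / (N1 + N2)) * (1 - S11 / (N1 * N1)) +
      ((N2 : ℝ) / (N1 + N2)) * (1 - S22 / (N2 * N2)) =
      1 - (S11 + S12 + S21 + S22) / ((N1 + N2) * (N1 + N2)) -
      ((N2 : ℝ) ^ 2 * S11 - N1 * N2 * S12 - N1 * N2 * S21 + (N1 : ℝ) ^ 2 * S22) /
        (N1 * N2 * (N1 + N2) ^ 2) := by
    field_simp
    ring
  rw [key]
  have : 0 ≤ ((N2 : ℝ) ^ 2 * S11 - N1 * N2 * S12 - N1 * N2 * S21 + (N1 : ℝ) ^ 2 * S22) /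
        (N1 * N2 * (N1 + N2) ^ 2) := div_nonneg hpsd' (by positivity)
  linarith

theorem sv0_succ {n q : ℕ} (m : ℕ) (A : Set (Fin n → Fin q)) :
    sv0 (m + 1) A = E (fun e : Fin n × Fin n => sv0 m (A ∩ {a | pr a e})) := by
  unfold sv0
  rw [E_cons]
  refine E_congr fun c => E_congr fun G => ind_congr ?_
  constructor
  · rintro ⟨σ, hσ, h⟩
    refine ⟨σ, ⟨hσ, by simpa using h 0⟩, fun j => by simpa using h j.succ⟩
  · rintro ⟨σ, ⟨hσ, hc⟩, h⟩
    refine ⟨σ, hσ, fun j => ?_⟩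
    refine Fin.cases ?_ (fun j => ?_) j
    · simpa using hc
    · simpa using h j

theorem sv0_zero {n q : ℕ} (A : Set (Fin n → Fin q)) : sv0 0 A = ind A.Nonempty := by
  unfold sv0
  have h : ∀ F : Fin 0 → Fin n × Fin n, ind (∃ σ ∈ A, ∀ j, pr σ (F j)) = ind A.Nonempty := by
    intro F
    apply ind_congr
    constructor
    · rintro ⟨σ, h, _⟩; exact ⟨σ, h⟩
    · rintro ⟨σ, h⟩; exact ⟨σ, h, fun j => j.elim0⟩
  rw [E_congr h]
  exact E_const _

theorem rectc_nonempty {N1 N2 q : ℕ} (A1 : Set (Fin N1 → Fin q)) (A2 : Set (Fin N2 → Fin q)) :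
    (rectc A1 A2).Nonempty ↔ A1.Nonempty ∧ A2.Nonempty := by
  constructor
  · rintro ⟨a, h1, h2⟩
    exact ⟨⟨_, h1⟩, ⟨_, h2⟩⟩
  · rintro ⟨⟨a1, h1⟩, ⟨a2, h2⟩⟩
    refine ⟨Fin.append a1 a2, ?_, ?_⟩
    · simpa [Fin.append_left] using h1
    · simpa [Fin.append_right] using h2

theorem in_anti {N1 N2 q : ℕ} (m : ℕ) (h1 : 0 < N1) (h2 : 0 < N2) :
    ∀ (A1 : Set (Fin N1 → Fin q)) (A2 : Set (Fin N2 → Fin q)),
    ∑ ij ∈ antidiagonal m, (m.choose ij.1 : ℝ) * (((N1 : ℝ) / (N1 + N2)) ^ ij.1 *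
      ((N2 : ℝ) / (N1 + N2)) ^ ij.2 * (sv0 ij.1 A1 * sv0 ij.2 A2)) ≤
      sv0 m (rectc A1 A2) := by
  induction m with
  | zero =>
    intro A1 A2
    simp only [Finset.Nat.antidiagonal_zero, sum_singleton, Nat.choose_self, Nat.cast_one, pow_zero, one_mul]
    rw [sv0_zero, sv0_zero, sv0_zero, ← ind_and]
    exact ind_mono (rectc_nonempty A1 A2).2
  | succ m ih =>
    intro A1 A2
    set p : ℝ := (N1 : ℝ) / (N1 + N2) with hp
    set r : ℝ := (N2 : ℝ) / (N1 + N2) with hr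
    have hp0 : 0 ≤ p := by positivity
    have hr0 : 0 ≤ r := by positivity
    have hpas := Finset.sum_antidiagonal_choose_succ_mul
      (fun i j => p ^ i * r ^ j * (sv0 i A1 * sv0 j A2)) m
    rw [hpas]
    have hA : ∑ ij ∈ antidiagonal m, (m.choose ij.1 : ℝ) *
        (p ^ ij.1 * r ^ (ij.2 + 1) * (sv0 ij.1 A1 * sv0 (ij.2 + 1) A2)) =
        r * E (fun c : Fin N2 × Fin N2 => ∑ ij ∈ antidiagonal m, (m.choose ij.1 : ℝ) *
          (p ^ ij.1 * r ^ ij.2 * (sv0 ij.1 A1 * sv0 ij.2 (A2 ∩ {a | pr a c})))) := by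
      rw [E_sum, Finset.mul_sum]
      refine Finset.sum_congr rfl fun ij _ => ?_
      rw [sv0_succ]
      have : ∀ c : Fin N2 × Fin N2, (m.choose ij.1 : ℝ) *
          (p ^ ij.1 * r ^ ij.2 * (sv0 ij.1 A1 * sv0 ij.2 (A2 ∩ {a | pr a c}))) =
          ((m.choose ij.1 : ℝ) * (p ^ ij.1 * r ^ ij.2 * sv0 ij.1 A1)) *
            sv0 ij.2 (A2 ∩ {a | pr a c}) := by intro c; ring
      rw [E_congr this, E_mul_left]
      ring
    have hB : ∑ ij ∈ antidiagonal m, (m.choose ij.2 : ℝ) *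
        (p ^ (ij.1 + 1) * r ^ ij.2 * (sv0 (ij.1 + 1) A1 * sv0 ij.2 A2)) =
        p * E (fun c : Fin N1 × Fin N1 => ∑ ij ∈ antidiagonal m, (m.choose ij.1 : ℝ) *
          (p ^ ij.1 * r ^ ij.2 * (sv0 ij.1 (A1 ∩ {a | pr a c}) * sv0 ij.2 A2))) := by
      rw [E_sum, Finset.mul_sum]
      refine Finset.sum_congr rfl fun ij hij => ?_
      rw [sv0_succ]
      have hch : m.choose ij.2 = m.choose ij.1 := by
        have := mem_antidiagonal.1 hij
        rw [← this]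
        exact (Nat.choose_symm_add).symm
      have : ∀ c : Fin N1 × Fin N1, (m.choose ij.1 : ℝ) *
          (p ^ ij.1 * r ^ ij.2 * (sv0 ij.1 (A1 ∩ {a | pr a c}) * sv0 ij.2 A2)) =
          ((m.choose ij.1 : ℝ) * (p ^ ij.1 * r ^ ij.2 * sv0 ij.2 A2)) *
            sv0 ij.1 (A1 ∩ {a | pr a c}) := by intro c; ring
      rw [E_congr this, E_mul_left, hch]
      ring
    rw [hA, hB]
    have hA' : E (fun c : Fin N2 × Fin N2 => ∑ ij ∈ antidiagonal m, (m.choose ij.1 : ℝ) *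
          (p ^ ij.1 * r ^ ij.2 * (sv0 ij.1 A1 * sv0 ij.2 (A2 ∩ {a | pr a c})))) ≤
        E (fun F : Fin m → Fin (N1 + N2) × Fin (N1 + N2) => E (fun c : Fin N2 × Fin N2 =>
          ind (∃ σ ∈ rectc A1 A2 ∩ {a | ∀ j, pr a (F j)}, pr σ (ir N1 N2 c)))) := by
      rw [← E_comm]
      refine E_mono fun c => ?_
      refine (ih A1 (A2 ∩ {a | pr a c})).trans (le_of_eq ?_)
      unfold sv0
      refine E_congr fun F => ind_congr ?_
      constructor
      · rintro ⟨a, ⟨ha1, ha2, hp⟩, haF⟩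
        exact ⟨a, ⟨⟨ha1, ha2⟩, haF⟩, hp⟩
      · rintro ⟨a, ⟨⟨ha1, ha2⟩, haF⟩, hp⟩
        exact ⟨a, ⟨ha1, ha2, hp⟩, haF⟩
    have hB' : E (fun c : Fin N1 × Fin N1 => ∑ ij ∈ antidiagonal m, (m.choose ij.1 : ℝ) *
          (p ^ ij.1 * r ^ ij.2 * (sv0 ij.1 (A1 ∩ {a | pr a c}) * sv0 ij.2 A2))) ≤
        E (fun F : Fin m → Fin (N1 + N2) × Fin (N1 + N2) => E (fun c : Fin N1 × Fin N1 =>
          ind (∃ σ ∈ rectc A1 A2 ∩ {a | ∀ j, pr a (F j)}, pr σ (il N1 N2 c)))) := by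
      rw [← E_comm]
      refine E_mono fun c => ?_
      refine (ih (A1 ∩ {a | pr a c}) A2).trans (le_of_eq ?_)
      unfold sv0
      refine E_congr fun F => ind_congr ?_
      constructor
      · rintro ⟨a, ⟨⟨ha1, hp⟩, ha2⟩, haF⟩
        exact ⟨a, ⟨⟨ha1, ha2⟩, haF⟩, hp⟩
      · rintro ⟨a, ⟨⟨ha1, ha2⟩, haF⟩, hp⟩
        exact ⟨a, ⟨⟨ha1, hp⟩, ha2⟩, haF⟩
    have hfin : sv0 (m + 1) (rectc A1 A2) =
        E (fun F : Fin m → Fin (N1 + N2) × Fin (N1 + N2) => E (fun c : Fin (N1 + N2) × Fin (N1 + N2) =>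
          ind (∃ σ ∈ rectc A1 A2 ∩ {a | ∀ j, pr a (F j)}, pr σ c))) := by
      rw [sv0_succ, ← E_comm]
      refine E_congr fun c => ?_
      unfold sv0
      refine E_congr fun F => ind_congr ?_
      constructor
      · rintro ⟨a, ⟨ha, hc⟩, haF⟩
        exact ⟨a, ⟨ha, haF⟩, hc⟩
      · rintro ⟨a, ⟨ha, haF⟩, hc⟩
        exact ⟨a, ⟨ha, hc⟩, haF⟩
    rw [hfin]
    refine (add_le_add (mul_le_mul_of_nonneg_left hA' hr0)
      (mul_le_mul_of_nonneg_left hB' hp0)).trans ?_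
    rw [← E_mul_left, ← E_mul_left, ← E_add]
    refine E_mono fun F => ?_
    have := in_step h1 h2 (rectc A1 A2 ∩ {a | ∀ j, pr a (F j)})
    linarith

theorem interp (N1 N2 q m : ℕ) (h1 : 0 < N1) (h2 : 0 < N2)
    (A1 : Set (Fin N1 → Fin q)) (A2 : Set (Fin N2 → Fin q)) :
    ∑ j ∈ range (m + 1), (m.choose j : ℝ) * ((N1 : ℝ) / (N1 + N2)) ^ j *
      ((N2 : ℝ) / (N1 + N2)) ^ (m - j) * (sv0 j A1 * sv0 (m - j) A2) ≤
      sv0 m (rectc A1 A2) := by
  have := in_anti m h1 h2 A1 A2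
  rw [Finset.Nat.sum_antidiagonal_eq_sum_range_succ
    (fun i j => (m.choose i : ℝ) * (((N1 : ℝ) / (N1 + N2)) ^ i *
      ((N2 : ℝ) / (N1 + N2)) ^ j * (sv0 i A1 * sv0 j A2)))] at this
  refine le_trans (le_of_eq ?_) this
  refine Finset.sum_congr rfl fun j _ => ?_
  ring

end Pool.Agent.H224R2.CT
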