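import Pool.Agent.H224R2.CT.IN

/-!
# Supermultiplicativity of the colourability probability (loops kill), and the link with the model
without loops
-/

set_option autoImplicit false

namespace Pool.Agent.H224R2.CT
open Finset Filter Pool.Agent.H999R2.KSat

/-- probability that `m` uniform ordered pairs (loops kill) over `n` vertices are `q`-colourable -/
noncomputable def p0 (q n m : ℕ) : ℝ := sv0 m (Set.univ : Set (Fin n → Fin q))

/-- probability that `m` independent uniform ordered pairs of distinct vertices are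
`q`-colourable -/
noncomputable def pc (q n m : ℕ) : ℝ :=
  E (fun F : Fin m → {e : Fin n × Fin n // e.1 ≠ e.2} =>
    ind (∃ σ : Fin n → Fin q, ∀ j, σ (F j).1.1 ≠ σ (F j).1.2))

theorem rectc_univ (q N1 N2 : ℕ) :
    rectc (Set.univ : Set (Fin N1 → Fin q)) (Set.univ : Set (Fin N2 → Fin q)) = Set.univ := by
  ext a; simp [rectc]

theorem p0_nonneg (q n m : ℕ) : 0 ≤ p0 q n m := E_nonneg fun _ => ind_nonneg _

theorem p0_zero (q n : ℕ) (hq : 0 < q) : p0 q n 0 = 1 := by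
  unfold p0
  rw [sv0_zero]
  exact ind_true ⟨fun _ => ⟨0, hq⟩, trivial⟩

theorem p0_succ_le (q n m : ℕ) (hn : 0 < n) : p0 q n (m + 1) ≤ p0 q n m := by
  have : Nonempty (Fin n) := ⟨⟨0, hn⟩⟩
  unfold p0
  rw [sv0_succ]
  refine E_le_const fun e => ?_
  unfold sv0
  refine E_mono fun F => ind_mono ?_
  rintro ⟨σ, _, h⟩
  exact ⟨σ, trivial, h⟩

theorem p0_anti (q n : ℕ) (hn : 0 < n) {m m' : ℕ} (h : m ≤ m') : p0 q n m' ≤ p0 q n m :=
  antitone_nat_of_succ_le (fun m => p0_succ_le q n m hn) h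

theorem super_one0 (q n m : ℕ) (hq : 0 < q) (hn : 0 < n) :
    ((n : ℝ) / (n + 1)) ^ m * p0 q n m ≤ p0 q (n + 1) m := by
  have h := interp n 1 q m hn one_pos Set.univ Set.univ
  rw [rectc_univ] at h
  have h' : ∑ j ∈ range (m + 1), (m.choose j : ℝ) * ((n : ℝ) / (n + (1 : ℕ))) ^ j *
      (((1 : ℕ) : ℝ) / (n + (1 : ℕ))) ^ (m - j) * (p0 q n j * p0 q 1 (m - j)) ≤ p0 q (n + 1) m := h
  refine le_trans ?_ h'
  have hnn : ∀ j ∈ range (m + 1), 0 ≤ (m.choose j : ℝ) * ((n : ℝ) / (n + (1 : ℕ))) ^ j *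
      (((1 : ℕ) : ℝ) / (n + (1 : ℕ))) ^ (m - j) * (p0 q n j * p0 q 1 (m - j)) := by
    intro j _
    have := p0_nonneg q n j
    have := p0_nonneg q 1 (m - j)
    positivity
  refine le_trans ?_ (Finset.single_le_sum hnn (Finset.self_mem_range_succ m))
  simp only [Nat.choose_self, Nat.sub_self, pow_zero, p0_zero q 1 hq, Nat.cast_one, one_mul, mul_one]
  exact le_refl _

theorem sm_variance (m : ℕ) (p : ℝ) :
    ∑ j ∈ range (m + 1), (m.choose j : ℝ) * p ^ j * (1 - p) ^ (m - j) * ((j : ℝ) - m * p) ^ 2 =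
      m * p * (1 - p) := by
  have h := congrArg (Polynomial.eval p) (bernsteinPolynomial.variance ℝ m)
  rw [Polynomial.eval_finsetSum] at h
  simp only [bernsteinPolynomial, Polynomial.eval_mul, Polynomial.eval_pow, Polynomial.eval_sub,
    Polynomial.eval_X, Polynomial.eval_natCast, Polynomial.eval_one,
    nsmul_eq_mul] at h
  rw [← h]
  refine Finset.sum_congr rfl fun j _ => ?_
  ring

theorem super_two0 (q N1 N2 m m1 m2 : ℕ) (d : ℝ) (hq : 0 < q) (h1 : 0 < N1) (h2 : 0 < N2)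
    (hd : 0 ≤ d) (hdm : 4 * (m : ℝ) ≤ d ^ 2)
    (hm1 : m * (N1 : ℝ) / (N1 + N2) + d ≤ m1) (hm2 : m * (N2 : ℝ) / (N1 + N2) + d ≤ m2) :
    1 / 2 * p0 q N1 m1 * p0 q N2 m2 ≤ p0 q (N1 + N2) m := by
  have h := interp N1 N2 q m h1 h2 Set.univ Set.univ
  rw [rectc_univ] at h
  have h' : ∑ j ∈ range (m + 1), (m.choose j : ℝ) * ((N1 : ℝ) / (N1 + N2)) ^ j *
      ((N2 : ℝ) / (N1 + N2)) ^ (m - j) * (p0 q N1 j * p0 q N2 (m - j)) ≤ p0 q (N1 + N2) m := h
  refine le_trans ?_ h'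
  have hN1 : (0 : ℝ) < N1 := by exact_mod_cast h1
  have hN2 : (0 : ℝ) < N2 := by exact_mod_cast h2
  set p : ℝ := (N1 : ℝ) / (N1 + N2) with hp
  have hqq : (N2 : ℝ) / (N1 + N2) = 1 - p := by rw [hp]; field_simp; ring
  have hp0 : 0 ≤ p := by positivity
  have hp1 : 0 ≤ 1 - p := by rw [← hqq]; positivity
  rw [hqq]
  have hmp : m * (N1 : ℝ) / (N1 + N2) = m * p := by rw [hp]; ring
  have hmq : m * (N2 : ℝ) / (N1 + N2) = m * (1 - p) := by rw [← hqq]; ring
  rw [hmp] at hm1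
  rw [hmq] at hm2
  set P : ℝ := p0 q N1 m1 * p0 q N2 m2 with hP
  have hP0 : 0 ≤ P := mul_nonneg (p0_nonneg _ _ _) (p0_nonneg _ _ _)
  -- weights
  set w : ℕ → ℝ := fun j => (m.choose j : ℝ) * p ^ j * (1 - p) ^ (m - j) with hw
  have hw0 : ∀ j, 0 ≤ w j := fun j => by simp only [hw]; positivity
  have hsum : ∑ j ∈ range (m + 1), w j = 1 := by
    have := add_pow p (1 - p) m
    rw [add_sub_cancel, one_pow] at this
    rw [this]
    refine Finset.sum_congr rfl fun j _ => ?_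
    simp only [hw]; ring
  have hvar : ∑ j ∈ range (m + 1), w j * ((j : ℝ) - m * p) ^ 2 ≤ m := by
    have := sm_variance m p
    simp only [hw]
    rw [this]
    have hm : (0 : ℝ) ≤ m := by positivity
    have : p * (1 - p) ≤ 1 := by nlinarith
    calc (m : ℝ) * p * (1 - p) = m * (p * (1 - p)) := by ring
      _ ≤ m * 1 := mul_le_mul_of_nonneg_left this hm
      _ = m := mul_one _
  -- pointwise bound
  have key : ∀ j ∈ range (m + 1), d ^ 2 * (w j * P) ≤
      d ^ 2 * (w j * (p0 q N1 j * p0 q N2 (m - j))) + w j * ((j : ℝ) - m * p) ^ 2 * P := by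
    intro j hj
    have hjm : j ≤ m := by
      have := Finset.mem_range.mp hj; omega
    by_cases hg : j ≤ m1 ∧ m - j ≤ m2
    · have ha := p0_anti q N1 h1 hg.1
      have hb := p0_anti q N2 h2 hg.2
      have : P ≤ p0 q N1 j * p0 q N2 (m - j) :=
        mul_le_mul ha hb (p0_nonneg _ _ _) (p0_nonneg _ _ _)
      have h3 : w j * P ≤ w j * (p0 q N1 j * p0 q N2 (m - j)) :=
        mul_le_mul_of_nonneg_left this (hw0 j)
      have h4 : 0 ≤ w j * ((j : ℝ) - m * p) ^ 2 * P :=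
        mul_nonneg (mul_nonneg (hw0 j) (sq_nonneg _)) hP0
      have := mul_le_mul_of_nonneg_left h3 (sq_nonneg d)
      linarith
    · have hdd : d ^ 2 ≤ ((j : ℝ) - m * p) ^ 2 := by
        rcases not_and_or.mp hg with h5 | h5
        · have h6 : (m1 : ℝ) < j := by exact_mod_cast not_le.mp h5
          have : d ≤ (j : ℝ) - m * p := by linarith
          exact pow_le_pow_left₀ hd this 2
        · have h6 : (m2 : ℝ) < ((m - j : ℕ) : ℝ) := by exact_mod_cast not_le.mp h5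
          rw [Nat.cast_sub hjm] at h6
          have : d ≤ m * p - (j : ℝ) := by linarith
          have := pow_le_pow_left₀ hd this 2
          calc d ^ 2 ≤ (m * p - (j : ℝ)) ^ 2 := this
            _ = _ := by ring
      have h4 : 0 ≤ d ^ 2 * (w j * (p0 q N1 j * p0 q N2 (m - j))) :=
        mul_nonneg (sq_nonneg d) (mul_nonneg (hw0 j)
          (mul_nonneg (p0_nonneg _ _ _) (p0_nonneg _ _ _)))
      have h5 : d ^ 2 * (w j * P) ≤ ((j : ℝ) - m * p) ^ 2 * (w j * P) :=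
        mul_le_mul_of_nonneg_right hdd (mul_nonneg (hw0 j) hP0)
      calc d ^ 2 * (w j * P) ≤ ((j : ℝ) - m * p) ^ 2 * (w j * P) := h5
        _ = w j * ((j : ℝ) - m * p) ^ 2 * P := by ring
        _ ≤ _ := by linarith
  have hS := Finset.sum_le_sum key
  rw [Finset.sum_add_distrib, ← Finset.mul_sum, ← Finset.mul_sum, ← Finset.sum_mul,
    ← Finset.sum_mul, hsum] at hS
  set S : ℝ := ∑ j ∈ range (m + 1), w j * (p0 q N1 j * p0 q N2 (m - j)) with hSdef
  have hgoal : 1 / 2 * P ≤ S := by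
    rcases Nat.eq_zero_or_pos m with hm | hm
    · -- m = 0
      have hS1 : S = 1 := by
        rw [hSdef]
        subst hm
        simp [hw, p0_zero q _ hq]
      have hA : p0 q N1 m1 ≤ 1 := by
        have := p0_anti q N1 h1 (Nat.zero_le m1); rwa [p0_zero q _ hq] at this
      have hB : p0 q N2 m2 ≤ 1 := by
        have := p0_anti q N2 h2 (Nat.zero_le m2); rwa [p0_zero q _ hq] at this
      have : P ≤ 1 := by
        rw [hP]
        exact mul_le_one₀ hA (p0_nonneg _ _ _) hB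
      rw [hS1]; linarith
    · have hm' : (0 : ℝ) < m := by exact_mod_cast hm
      have hd2 : 0 < d ^ 2 := by linarith
      have hV : (∑ j ∈ range (m + 1), w j * ((j : ℝ) - m * p) ^ 2) * P ≤ d ^ 2 / 4 * P := by
        apply mul_le_mul_of_nonneg_right _ hP0
        linarith
      have : d ^ 2 * (1 * P) ≤ d ^ 2 * S + d ^ 2 / 4 * P := by linarith
      have h8 : d ^ 2 * (1 / 2 * P) ≤ d ^ 2 * S := by nlinarith
      exact le_of_mul_le_mul_left h8 hd2
  calc 1 / 2 * p0 q N1 m1 * p0 q N2 m2 = 1 / 2 * P := by rw [hP]; ring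
    _ ≤ S := hgoal
    _ = _ := by rw [hSdef]

/-! ### Link between the two models -/

/-- survival probability in the model without loops -/
noncomputable def svc {n q : ℕ} (m : ℕ) (A : Set (Fin n → Fin q)) : ℝ :=
  E (fun F : Fin m → {e : Fin n × Fin n // e.1 ≠ e.2} =>
    ind (∃ σ ∈ A, ∀ j, pr σ (F j).1))

theorem svc_succ {n q : ℕ} (m : ℕ) (A : Set (Fin n → Fin q)) :
    svc (m + 1) A = E (fun e : {e : Fin n × Fin n // e.1 ≠ e.2} => svc m (A ∩ {a | pr a e.1})) := by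
  unfold svc
  rw [E_cons]
  refine E_congr fun c => E_congr fun G => ind_congr ?_
  constructor
  · rintro ⟨σ, hσ, h⟩
    refine ⟨σ, ⟨hσ, by simpa using h 0⟩, fun j => by simpa using h j.succ⟩
  · rintro ⟨σ, ⟨hσ, hc⟩, h⟩
    refine ⟨σ, hσ, fun j => ?_⟩
    refine Fin.cases ?_ (fun j => ?_) j
    · simpa using hc
    · simpa using h j

theorem svc_zero {n q : ℕ} (A : Set (Fin n → Fin q)) : svc 0 A = ind A.Nonempty := by
  unfold svc
  have h : ∀ F : Fin 0 → {e : Fin n × Fin n // e.1 ≠ e.2},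
      ind (∃ σ ∈ A, ∀ j, pr σ (F j).1) = ind A.Nonempty := by
    intro F
    apply ind_congr
    constructor
    · rintro ⟨σ, h, _⟩; exact ⟨σ, h⟩
    · rintro ⟨σ, h⟩; exact ⟨σ, h, fun j => j.elim0⟩
  rw [E_congr h]
  exact E_const _

theorem sv0_empty {n q : ℕ} (m : ℕ) : sv0 m (∅ : Set (Fin n → Fin q)) = 0 := by
  unfold sv0
  have h : ∀ F : Fin m → Fin n × Fin n, ind (∃ σ ∈ (∅ : Set (Fin n → Fin q)), ∀ j, pr σ (F j)) = 0 := by
    intro F
    apply ind_false
    rintro ⟨σ, h, _⟩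
    exact h
  rw [E_congr h, E_zero]

theorem card_ed (n : ℕ) (hn : 0 < n) :
    (Fintype.card {e : Fin n × Fin n // e.1 ≠ e.2} : ℝ) = n * (n - 1) := by
  classical
  have h : Fintype.card {e : Fin n × Fin n // e.1 ≠ e.2} = (univ : Finset (Fin n)).offDiag.card := by
    rw [Fintype.card_subtype]
    congr 1
    ext e
    simp
  rw [h, offDiag_card, card_univ, Fintype.card_fin]
  rw [Nat.cast_sub (Nat.le_mul_of_pos_left n hn)]
  push_cast
  ring

/-- averages over all pairs of functions vanishing on loops -/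
theorem E_pairs {n : ℕ} (hn : 2 ≤ n) (h : Fin n × Fin n → ℝ) (hl : ∀ e, e.1 = e.2 → h e = 0) :
    E h = (((n : ℝ) - 1) / n) * E (fun e : {e : Fin n × Fin n // e.1 ≠ e.2} => h e.1) := by
  classical
  have hn' : (2 : ℝ) ≤ n := by exact_mod_cast hn
  have hs : ∑ e, h e = ∑ e : {e : Fin n × Fin n // e.1 ≠ e.2}, h e.1 := by
    have h1 : ∑ e ∈ univ.filter (fun e : Fin n × Fin n => e.1 ≠ e.2), h e =
        ∑ e : {e : Fin n × Fin n // e.1 ≠ e.2}, h e.1 :=
      Finset.sum_subtype _ (by simp) h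
    refine Eq.trans ?_ h1
    rw [Finset.sum_filter]
    refine Finset.sum_congr rfl fun e _ => ?_
    by_cases he : e.1 = e.2
    · simp [he, hl e he]
    · simp [he]
  unfold E
  rw [hs, card_ed n (by omega), Fintype.card_prod, Fintype.card_fin]
  push_cast
  have h1 : (n : ℝ) - 1 ≠ 0 := by linarith
  have h0 : (n : ℝ) ≠ 0 := by linarith
  field_simp

theorem sv0_eq {n q : ℕ} (hn : 2 ≤ n) (m : ℕ) :
    ∀ A : Set (Fin n → Fin q), sv0 m A = (((n : ℝ) - 1) / n) ^ m * svc m A := by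
  induction m with
  | zero => intro A; rw [sv0_zero, svc_zero]; ring
  | succ m ih =>
    intro A
    have hz : ∀ e : Fin n × Fin n, e.1 = e.2 → sv0 m (A ∩ {a | pr a e}) = 0 := by
      intro e he
      have : A ∩ {a | pr a e} = ∅ := by
        ext a
        simp [pr, he]
      rw [this, sv0_empty]
    have h2 : E (fun e : {e : Fin n × Fin n // e.1 ≠ e.2} => sv0 m (A ∩ {a | pr a e.1})) =
        (((n : ℝ) - 1) / n) ^ m *
          E (fun e : {e : Fin n × Fin n // e.1 ≠ e.2} => svc m (A ∩ {a | pr a e.1})) := by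
      rw [← E_mul_left]
      exact E_congr fun e => ih _
    rw [sv0_succ, svc_succ, E_pairs hn (fun e => sv0 m (A ∩ {a | pr a e})) hz, h2, pow_succ]
    ring

theorem p0_eq (q n m : ℕ) (hn : 2 ≤ n) : p0 q n m = (((n : ℝ) - 1) / n) ^ m * pc q n m := by
  unfold p0
  rw [sv0_eq hn]
  congr 1
  unfold svc pc
  refine E_congr fun F => ind_congr ?_
  constructor
  · rintro ⟨σ, _, h⟩; exact ⟨σ, h⟩
  · rintro ⟨σ, h⟩; exact ⟨σ, trivial, h⟩

theorem pc_nonneg (q n m : ℕ) : 0 ≤ pc q n m := E_nonneg fun _ => ind_nonneg _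

theorem pc_zero (q n : ℕ) (hq : 0 < q) : pc q n 0 = 1 := by
  unfold pc
  rw [E_congr (g := fun _ => (1 : ℝ))]
  · exact E_const 1
  · intro F
    exact ind_true ⟨fun _ => ⟨0, hq⟩, fun j => j.elim0⟩

theorem pc_succ_le (q n m : ℕ) : pc q n (m + 1) ≤ pc q n m := by
  unfold pc
  rw [E_cons]
  refine E_le_of_nonneg (E_nonneg fun _ => ind_nonneg _) fun e => ?_
  refine E_mono fun F => ind_mono ?_
  rintro ⟨σ, h⟩
  exact ⟨σ, fun j => by simpa using h j.succ⟩

theorem pc_super_one (q n m : ℕ) (hq : 0 < q) (hn : 2 ≤ n) :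
    (((n : ℝ) - 1) / n) ^ m * pc q n m ≤ pc q (n + 1) m := by
  have h := super_one0 q n m hq (by omega)
  rw [p0_eq q n m hn, p0_eq q (n + 1) m (by omega)] at h
  have hn' : (0 : ℝ) < n := by
    have : 0 < n := by omega
    exact_mod_cast this
  have e : (((n + 1 : ℕ) : ℝ) - 1) / ((n + 1 : ℕ) : ℝ) = (n : ℝ) / (n + 1) := by
    push_cast; ring
  rw [e] at h
  exact le_of_mul_le_mul_left h (by positivity)

theorem pc_super_two (q N1 N2 m m1 m2 : ℕ) (d : ℝ) (hq : 0 < q) (h1 : 2 ≤ N1) (h2 : 2 ≤ N2)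
    (hd : 0 ≤ d) (hdm : 4 * (m : ℝ) ≤ d ^ 2)
    (hm1 : m * (N1 : ℝ) / (N1 + N2) + d ≤ m1) (hm2 : m * (N2 : ℝ) / (N1 + N2) + d ≤ m2) :
    1 / 2 * ((((N1 : ℝ) - 1) / N1) ^ m1 * pc q N1 m1) *
      ((((N2 : ℝ) - 1) / N2) ^ m2 * pc q N2 m2) ≤ pc q (N1 + N2) m := by
  have h := super_two0 q N1 N2 m m1 m2 d hq (by omega) (by omega) hd hdm hm1 hm2
  rw [p0_eq q N1 m1 h1, p0_eq q N2 m2 h2, p0_eq q (N1 + N2) m (by omega)] at h
  refine h.trans ?_
  have hN : (2 : ℝ) ≤ ((N1 + N2 : ℕ) : ℝ) := by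
    have : 2 ≤ N1 + N2 := by omega
    exact_mod_cast this
  have h3 : ((((N1 + N2 : ℕ) : ℝ) - 1) / ((N1 + N2 : ℕ) : ℝ)) ^ m ≤ 1 := by
    apply pow_le_one₀
    · apply div_nonneg <;> linarith
    · rw [div_le_one (by linarith)]; linarith
  have := mul_le_mul_of_nonneg_right h3 (pc_nonneg q (N1 + N2) m)
  linarith

end Pool.Agent.H224R2.CT
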